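import Mathlib

/-! Graphs that do not split into two parts of small maximum degree have many edges. -/

open Finset

namespace Pool.Agent.Lib.MP_c89be3_co

variable {V : Type*} [Fintype V] [DecidableEq V]

/-- A subset on which all the sets `N v` have about the expected share. -/
theorem second_moment (N : V → Finset V) {q : ℝ} (h0 : 0 ≤ q) (h1 : q ≤ 1) (R : Finset V) :
    ∃ S ⊆ R, ∑ v, ((#(N v ∩ S) : ℝ) - q * #(N v ∩ R)) ^ 2 ≤ q * ∑ v, (#(N v ∩ R) : ℝ) := by
  induction R using Finset.induction_on with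
  | empty => exact ⟨∅, Subset.refl _, by simp⟩
  | insert a R ha ih =>
    obtain ⟨S, hS, h⟩ := ih
    have ha' : a ∉ S := fun k => ha (hS k)
    have e : ∀ (T : Finset V), a ∉ T → ∀ v, (#(N v ∩ insert a T) : ℝ) =
        #(N v ∩ T) + if a ∈ N v then 1 else 0 := fun T hT v => by
      by_cases k : a ∈ N v
      · rw [inter_insert_of_mem k, card_insert_of_notMem (fun c => hT (mem_inter.1 c).2)]
        simp [k]
      · rw [inter_insert_of_notMem k]
        simp [k]
    by_contra c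
    push Not at c
    have c1 := c (insert a S) (insert_subset_insert a hS)
    have c2 := c S (hS.trans (subset_insert a R))
    have k : q * ∑ v, ((#(N v ∩ insert a S) : ℝ) - q * #(N v ∩ insert a R)) ^ 2 +
        (1 - q) * ∑ v, ((#(N v ∩ S) : ℝ) - q * #(N v ∩ insert a R)) ^ 2 ≤
        ∑ v, ((#(N v ∩ S) : ℝ) - q * #(N v ∩ R)) ^ 2 +
          q * ∑ v, (if a ∈ N v then (1 : ℝ) else 0) := by
      rw [mul_sum, mul_sum, mul_sum, ← sum_add_distrib, ← sum_add_distrib]
      refine sum_le_sum fun v _ => ?_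
      rw [e S ha', e R ha]
      split_ifs
      · nlinarith [sq_nonneg q]
      · nlinarith
    have e' : ∑ v, (#(N v ∩ insert a R) : ℝ) =
        ∑ v, (#(N v ∩ R) : ℝ) + ∑ v, (if a ∈ N v then (1 : ℝ) else 0) := by
      rw [← sum_add_distrib]
      exact sum_congr rfl fun v _ => e R ha v
    rw [e'] at c1 c2
    rcases h0.eq_or_lt with rfl | h0'
    · linarith
    · nlinarith [mul_lt_mul_of_pos_left c1 h0', mul_le_mul_of_nonneg_left c2.le (sub_nonneg.2 h1)]

/-- Greedy deletion of vertices of maximum degree. -/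
theorem greedy (N : V → Finset V) (hs : ∀ v w, w ∈ N v → v ∈ N w) (hi : ∀ v, v ∉ N v)
    (U : Finset V) : ∃ P : ℕ → Finset V, (∀ τ, 1 ≤ τ → ∀ v ∈ U \ P τ, #(N v ∩ (U \ P τ)) < τ) ∧
      ∀ T, 2 * ∑ τ ∈ range T, #(P (τ + 1)) ≤ ∑ v ∈ U, #(N v ∩ U) := by
  induction U using Finset.strongInduction with
  | H U ih =>
    rcases U.eq_empty_or_nonempty with rfl | hU
    · exact ⟨fun _ => ∅, by simp, by simp⟩
    obtain ⟨a, ha, hm⟩ := exists_max_image U (fun v => #(N v ∩ U)) hU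
    obtain ⟨P, h1, h2⟩ := ih (U.erase a) (erase_ssubset ha)
    refine ⟨fun τ => if τ ≤ #(N a ∩ U) then insert a (P τ) else ∅, fun τ hτ v hv => ?_,
      fun T => ?_⟩
    · by_cases k : τ ≤ #(N a ∩ U)
      · simp only [k, if_true] at hv ⊢
        have e : U \ insert a (P τ) = U.erase a \ P τ := by
          ext w
          simp only [mem_sdiff, mem_insert, mem_erase]
          tauto
        rw [e] at hv ⊢
        exact h1 τ hτ v hv
      · simp only [k, if_false, sdiff_empty] at hv ⊢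
        exact (hm v hv).trans_lt (not_le.1 k)
    · have e1 : ∑ v ∈ U, #(N v ∩ U) =
          ∑ v ∈ U.erase a, #(N v ∩ U.erase a) + 2 * #(N a ∩ U) := by
        have e : ∀ v, #(N v ∩ U) = #(N v ∩ U.erase a) + if v ∈ N a then 1 else 0 := fun v => by
          by_cases k : v ∈ N a
          · rw [inter_erase, if_pos k, card_erase_add_one (mem_inter.2 ⟨hs _ _ k, ha⟩)]
          · rw [inter_erase, if_neg k, add_zero, erase_eq_of_notMem]
            exact fun c => k (hs _ _ (mem_inter.1 c).1)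
        have e2 : ∑ v ∈ U.erase a, (if v ∈ N a then 1 else 0) = #(N a ∩ U) := by
          rw [← card_filter, filter_mem_eq_inter, inter_comm, inter_erase, erase_eq_of_notMem]
          exact fun c => hi a (mem_inter.1 c).1
        rw [← sum_erase_add _ _ ha, sum_congr rfl fun v _ => e v, sum_add_distrib, e2]
        ring
      have e3 : ∑ τ ∈ range T, #(if τ + 1 ≤ #(N a ∩ U) then insert a (P (τ + 1)) else ∅) ≤
          ∑ τ ∈ range T, #(P (τ + 1)) + #(N a ∩ U) := by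
        have : ∑ τ ∈ range T, (if τ < #(N a ∩ U) then 1 else 0) ≤ #(N a ∩ U) := by
          rw [← card_filter]
          exact (card_le_card fun τ k => mem_range.2 (mem_filter.1 k).2).trans (card_range _).le
        refine le_trans ?_ (Nat.add_le_add_left this _)
        rw [← sum_add_distrib]
        refine sum_le_sum fun τ _ => ?_
        by_cases k : τ < #(N a ∩ U)
        · rw [if_pos k, if_pos (Nat.succ_le_of_lt k)]
          exact card_insert_le _ _
        · rw [if_neg k, if_neg fun c => k (Nat.lt_of_succ_le c)]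
          simp
      have := h2 T
      beta_reduce
      omega

/-- A small set that lowers the maximum degree below `n + t` extends to a good part. -/
theorem key (N : V → Finset V) {n t : ℕ}
    (hn : ∀ A : Finset V, (∀ v ∉ A, #(N v \ A) < n) → ∃ v, n ≤ #(N v ∩ A))
    (P : Finset V) (hP : ∀ v ∉ P, #(N v \ P) < n + t) {q s D a b : ℝ} (hs : 0 < s) (h0 : 0 ≤ q)
    (h1 : q ≤ 1) (hq : t + s ≤ q * n) (hD : ∀ v, (#(N v) : ℝ) ≤ D)
    (ha : q * ∑ v, (#(N v) : ℝ) ≤ a * s ^ 2) (hb : q * ∑ v, (#(N v) : ℝ) ≤ b ^ 2) (b0 : 0 ≤ b) :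
    (n : ℝ) ≤ #P + a + b + q * D := by
  obtain ⟨S, hS, h⟩ := second_moment N h0 h1 Pᶜ
  have h' : ∑ v, ((#(N v ∩ S) : ℝ) - q * #(N v ∩ Pᶜ)) ^ 2 ≤ q * ∑ v, (#(N v) : ℝ) :=
    h.trans (mul_le_mul_of_nonneg_left (sum_le_sum fun v _ =>
      Nat.cast_le.2 (card_le_card inter_subset_left)) h0)
  let B : Finset V := {v | n ≤ #(N v ∩ Pᶜ) ∧ #(N v ∩ S) < t}
  have hB : (#B : ℝ) ≤ a := by
    refine le_of_mul_le_mul_right (le_trans ?_ (h'.trans ha)) (pow_pos hs 2)
    refine le_trans ?_ (sum_le_sum_of_subset_of_nonneg (subset_univ B) fun _ _ _ => sq_nonneg _)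
    rw [← nsmul_eq_mul, ← sum_const]
    refine sum_le_sum fun v hv => ?_
    obtain ⟨k1, k2⟩ := (mem_filter.1 hv).2
    have k1' : (n : ℝ) ≤ #(N v ∩ Pᶜ) := Nat.cast_le.2 k1
    have k2' : (#(N v ∩ S) : ℝ) ≤ t := Nat.cast_le.2 k2.le
    have := mul_le_mul_of_nonneg_left k1' h0
    nlinarith
  obtain ⟨v, hv⟩ := hn (P ∪ B ∪ S) fun v hv => by
    simp only [mem_union, not_or] at hv
    have e : N v ∩ Pᶜ = N v \ P := by ext; simp
    have l : #(N v \ (P ∪ B ∪ S)) + #(N v ∩ S) ≤ #(N v \ P) := by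
      rw [← card_union_of_disjoint]
      · refine card_le_card fun w k => ?_
        simp only [mem_union, mem_sdiff, mem_inter, not_or] at k ⊢
        rcases k with k | k
        · exact ⟨k.1, k.2.1.1⟩
        · exact ⟨k.1, mem_compl.1 (hS k.2)⟩
      · refine disjoint_left.2 fun w k k' => ?_
        simp only [mem_union, mem_sdiff, mem_inter, not_or] at k k'
        exact k.2.2 k'.2
    have k := hv.1.2
    simp only [B, mem_filter, mem_univ, true_and, e, not_and, not_lt] at k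
    have := hP v hv.1.1
    by_cases c : n ≤ #(N v \ P)
    · have := k c
      omega
    · omega
  have l : #(N v ∩ (P ∪ B ∪ S)) ≤ #P + #B + #(N v ∩ S) := by
    rw [inter_union_distrib_left]
    exact (card_union_le _ _).trans (Nat.add_le_add_right
      ((card_le_card inter_subset_right).trans (card_union_le _ _)) _)
  have l' : (n : ℝ) ≤ #P + #B + #(N v ∩ S) := by exact_mod_cast hv.trans l
  have d : ((#(N v ∩ S) : ℝ) - q * #(N v ∩ Pᶜ)) ^ 2 ≤ b ^ 2 :=
    (single_le_sum (f := fun v => ((#(N v ∩ S) : ℝ) - q * #(N v ∩ Pᶜ)) ^ 2)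
      (fun _ _ => sq_nonneg _) (mem_univ v)).trans (h'.trans hb)
  have d' := (abs_le.1 (abs_le_of_sq_le_sq d b0)).2
  have d2 : (#(N v ∩ Pᶜ) : ℝ) ≤ D :=
    (Nat.cast_le.2 (card_le_card inter_subset_left)).trans (hD v)
  have := mul_le_mul_of_nonneg_left d2 h0
  linarith

theorem amgm {x y D : ℝ} (hx : 0 ≤ x) (hy : 0 ≤ y) (hD : 0 ≤ D) (h : x ^ 12 ≤ y * D) :
    √2 * x ^ 9 ≤ x ^ 6 * y / 2 + D := by
  refine (le_abs_self _).trans (abs_le_of_sq_le_sq ?_ (by positivity))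
  have e : (√2 * x ^ 9) ^ 2 = 2 * (x ^ 6 * x ^ 12) := by
    rw [mul_pow, Real.sq_sqrt (by norm_num)]
    ring
  have := mul_le_mul_of_nonneg_left h (pow_nonneg hx 6)
  nlinarith [sq_nonneg (x ^ 6 * y / 2 - D)]

/-- The lower bound for the sum of the degrees, with `n = x ^ 6`. -/
theorem lower (N : V → Finset V) (hs : ∀ v w, w ∈ N v → v ∈ N w) (hi : ∀ v, v ∉ N v) {n : ℕ}
    (hn : ∀ A : Finset V, (∀ v ∉ A, #(N v \ A) < n) → ∃ v, n ≤ #(N v ∩ A))
    {x : ℝ} (hx : 2 ≤ x) (e : (n : ℝ) = x ^ 6) :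
    2 * (x ^ 12 + √2 * x ^ 9 - 200 * x ^ 8) ≤ ∑ v, (#(N v) : ℝ) := by
  have x0 : 0 < x := by linarith
  have x1 : 1 ≤ x := by linarith
  have r2 : √2 ≤ (2 : ℝ) := Real.sqrt_le_iff.2 ⟨by norm_num, by norm_num⟩
  have p9 : 0 < x ^ 9 := by positivity
  have p8 : 0 < x ^ 8 := by positivity
  have p6 : 0 < x ^ 6 := by positivity
  have q9 := mul_le_mul_of_nonneg_right r2 p9.le
  rcases le_total (6 * x ^ 12) (∑ v, (#(N v) : ℝ)) with hE | hE
  · have : x ^ 9 ≤ x ^ 12 := pow_le_pow_right₀ x1 (by norm_num)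
    linarith
  obtain ⟨P, h1, h2⟩ := greedy N hs hi univ
  have hP : ∀ τ, 1 ≤ τ → ∀ v ∉ P τ, #(N v \ P τ) < τ := fun τ k v hv => by
    have := h1 τ k v (by simpa using hv)
    rwa [← inter_sdiff_assoc, inter_univ] at this
  obtain ⟨a₀, -⟩ := hn univ (by simp)
  obtain ⟨a, -, ha⟩ := exists_max_image univ (fun v => #(N v)) ⟨a₀, mem_univ _⟩
  obtain ⟨D, hD⟩ : ∃ D : ℝ, D = max (#(N a) : ℝ) (x ^ 9 / 4) := ⟨_, rfl⟩
  have D1 : x ^ 9 / 4 ≤ D := hD ▸ le_max_right _ _
  have D0 : 0 < D := by linarith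
  have D2 : ∀ v, (#(N v) : ℝ) ≤ D := fun v =>
    (Nat.cast_le.2 (ha v (mem_univ v))).trans (hD ▸ le_max_left _ _)
  obtain ⟨T, hT⟩ : ∃ T, T = ⌊x ^ 12 / D⌋₊ := ⟨_, rfl⟩
  have T1 : T * D ≤ x ^ 12 := (le_div_iff₀ D0).1 (hT ▸ Nat.floor_le (by positivity))
  have T2 : x ^ 12 ≤ (T + 1) * D := (div_le_iff₀ D0).1 (hT ▸ (Nat.lt_floor_add_one _).le)
  have T0 : (0 : ℝ) ≤ T := Nat.cast_nonneg T
  have T3 : (T : ℝ) ≤ 4 * x ^ 3 := by
    refine le_of_mul_le_mul_right ?_ p9
    have := mul_le_mul_of_nonneg_left D1 T0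
    linarith
  obtain ⟨r, hr⟩ : ∃ r, r = D / x ^ 6 := ⟨_, rfl⟩
  have T4 : T * r ≤ x ^ 6 := by
    rw [hr, ← mul_div_assoc, div_le_iff₀ p6]
    linarith
  have s1 : n * n ≤ ∑ τ ∈ range n, #(P (τ + 1)) := by
    refine le_trans (by simp) (sum_le_sum (f := fun _ => n) fun τ k => ?_)
    obtain ⟨v, hv⟩ := hn (P (τ + 1)) fun v hv =>
      (hP _ (by omega) v hv).trans_le (mem_range.1 k)
    exact hv.trans (card_le_card inter_subset_right)
  have s3 : #(N a) - n - T ≤ ∑ j ∈ range (#(N a) - n - T), #(P (n + T + j + 1)) := by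
    refine le_trans (by simp) (sum_le_sum (f := fun _ => 1) fun j k => ?_)
    refine card_pos.2 (nonempty_iff_ne_empty.2 fun c => ?_)
    have := hP (n + T + j + 1) (by omega) a (by simp [c])
    rw [c, sdiff_empty] at this
    have := mem_range.1 k
    omega
  have x23 : x ^ 2 ≤ x ^ 3 := pow_le_pow_right₀ x1 (by norm_num)
  have x8 : 8 ≤ x ^ 3 := le_trans (by norm_num) (pow_le_pow_left₀ (by norm_num) hx 3)
  have s2 : ∀ t ∈ range T, x ^ 6 - 36 * x ^ 5 - x ^ 2 * r - r * (t + 1) ≤ #(P (n + t + 1)) := by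
    intro t ht
    have t1 : (t + 1 : ℝ) ≤ T := by exact_mod_cast mem_range.1 ht
    have t0 : (0 : ℝ) ≤ t := Nat.cast_nonneg t
    have t2 : t + 1 + x ^ 2 ≤ 5 * x ^ 3 := by linarith
    have hq : (t + 1 + x ^ 2) / x ^ 6 * ∑ v, (#(N v) : ℝ) ≤ 30 * x ^ 9 := by
      rw [div_mul_eq_mul_div, div_le_iff₀ p6]
      refine (mul_le_mul t2 hE (by positivity) (by positivity)).trans (le_of_eq (by ring))
    have := key N hn (P (n + t + 1)) (t := t + 1) (hP _ (by omega))
      (q := (t + 1 + x ^ 2) / x ^ 6) (s := x ^ 2) (a := 30 * x ^ 5) (b := 6 * x ^ 5)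
      (by positivity) (by positivity) ((div_le_one p6).2 (by nlinarith))
      (by rw [e, div_mul_cancel₀ _ p6.ne']; push_cast; rfl) D2 (hq.trans (le_of_eq (by ring)))
      (hq.trans (by nlinarith [pow_le_pow_right₀ x1 (show 9 ≤ 10 by norm_num)])) (by positivity)
    have e2 : (t + 1 + x ^ 2) / x ^ 6 * D = x ^ 2 * r + r * (t + 1) := by
      rw [hr]
      field_simp
      ring
    rw [e, e2] at this
    linarith
  have g : ∀ T : ℕ, ∑ t ∈ range T, ((t : ℝ) + 1) = T * (T + 1) / 2 := fun T => by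
    induction T with
    | zero => simp
    | succ T ih =>
      rw [sum_range_succ, ih]
      push_cast
      ring
  have s2' := sum_le_sum s2
  rw [sum_sub_distrib, ← mul_sum, g, sum_const, card_range, nsmul_eq_mul] at s2'
  have h3 := h2 (n + T + (#(N a) - n - T))
  rw [sum_range_add, sum_range_add] at h3
  simp only [inter_univ] at h3
  have h4 : 2 * (n * n + ∑ t ∈ range T, #(P (n + t + 1)) + (#(N a) - n - T)) ≤ ∑ v, #(N v) := by
    omega
  obtain ⟨M, hM⟩ : ∃ M, M = #(N a) - n - T := ⟨_, rfl⟩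
  have M1 : (#(N a) : ℝ) ≤ M + n + T := by exact_mod_cast (by omega : #(N a) ≤ M + n + T)
  have M0 : (0 : ℝ) ≤ M := Nat.cast_nonneg M
  rw [← hM] at h4
  have h5 : 2 * ((n : ℝ) * n + ∑ t ∈ range T, (#(P (n + t + 1)) : ℝ) + M) ≤
      ∑ v, (#(N v) : ℝ) := by exact_mod_cast h4
  rw [e] at h5 M1
  have a1 := mul_le_mul_of_nonneg_right T3 (pow_pos x0 5).le
  have a2 := mul_le_mul_of_nonneg_left T4 (pow_pos x0 2).le
  have a3 := mul_le_mul_of_nonneg_right T4 (show (0 : ℝ) ≤ T + 1 by linarith)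
  have h6 : x ^ 6 * (T + 1) / 2 - x ^ 6 - 145 * x ^ 8 ≤
      ∑ t ∈ range T, (#(P (n + t + 1)) : ℝ) := by
    refine le_trans ?_ s2'
    linarith
  have x68 : x ^ 6 ≤ x ^ 8 := pow_le_pow_right₀ x1 (by norm_num)
  have x38 : x ^ 3 ≤ x ^ 8 := pow_le_pow_right₀ x1 (by norm_num)
  rcases max_choice (#(N a) : ℝ) (x ^ 9 / 4) with c | c
  · have := amgm x0.le (show (0 : ℝ) ≤ T + 1 by linarith) D0.le T2
    rw [hD, c] at this
    linarith
  · rw [hD, c] at T2
    have : 4 * x ^ 3 ≤ T + 1 := by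
      refine le_of_mul_le_mul_right ?_ p9
      linarith
    have := mul_le_mul_of_nonneg_left this p6.le
    linarith

end Pool.Agent.Lib.MP_c89be3_co
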