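import Mathlib

/-! A graph with few edges in which some vertex has many neighbours of its own colour. -/

open Finset

namespace Pool.Agent.Lib.MP_c89be3_co

/-- The edges of the graph: an apex joined to everything, and vertex `u` joined to the first
`n + u / b` vertices of the pool number `u % b`. -/
def upE (n b : ℕ) (hb : 0 < b) : Finset (Sym2 (Option (Fin n ⊕ Fin b × Fin (n + n / b)))) :=
  univ.image (fun w => s(none, some w)) ∪
    (univ.sigma fun u : Fin n => ({k | k.1 < n + u / b} : Finset (Fin (n + n / b)))).image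
      fun p => s(some (.inl p.1), some (.inr (⟨p.1 % b, Nat.mod_lt _ hb⟩, p.2)))

theorem up_le (n b : ℕ) (u : Fin n) : n + u / b ≤ n + n / b :=
  Nat.add_le_add_left (Nat.div_le_div_right u.2.le) _

theorem upE_card (n b : ℕ) (hb : 0 < b) :
    (#(upE n b hb) : ℝ) ≤ n ^ 2 + n ^ 2 / (2 * b) + b * n + 2 * n := by
  have h1 : #(upE n b hb) ≤ n + b * (n + n / b) + ∑ u ∈ range n, (n + u / b) := by
    refine (card_union_le _ _).trans (add_le_add (card_image_le.trans (by simp))
      (card_image_le.trans ?_))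
    rw [card_sigma, ← Fin.sum_univ_eq_sum_range]
    exact sum_le_sum fun u _ => by rw [Fin.card_filter_val_lt]; exact min_le_right _ _
  have b0 : (0 : ℝ) < b := Nat.cast_pos.2 hb
  have h2 : b * (n / b) ≤ n := Nat.mul_div_le n b
  have h3 : ∀ m : ℕ, ((∑ u ∈ range m, u / b : ℕ) : ℝ) ≤ m ^ 2 / (2 * b) := fun m => by
    induction m with
    | zero => simp
    | succ m ih =>
      rw [sum_range_succ, Nat.cast_add]
      have : ((m / b : ℕ) : ℝ) ≤ m / b := Nat.cast_div_le
      have e : ((m + 1 : ℕ) : ℝ) ^ 2 / (2 * b) = m ^ 2 / (2 * b) + m / b + 1 / (2 * b) := by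
        push_cast
        field_simp
        ring
      have : (0 : ℝ) ≤ 1 / (2 * b) := by positivity
      linarith
  rw [sum_add_distrib, sum_const, card_range, smul_eq_mul, mul_add] at h1
  have h4 : #(upE n b hb) ≤ n * n + ∑ u ∈ range n, u / b + b * n + 2 * n := by omega
  have h5 : (#(upE n b hb) : ℝ) ≤ n * n + (∑ u ∈ range n, u / b : ℕ) + b * n + 2 * n := by
    exact_mod_cast h4
  have := h3 n
  linarith

theorem upE_col (n b : ℕ) (hb : 0 < b) (c : Option (Fin n ⊕ Fin b × Fin (n + n / b)) → Fin 2) :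
    ∃ (v : Option (Fin n ⊕ Fin b × Fin (n + n / b))) (T : Finset _), n ≤ #T ∧
      (v = none ∨ c v ≠ c none) ∧
      ∀ w ∈ T, (SimpleGraph.fromEdgeSet (upE n b hb)).Adj v w ∧ c w = c v := by
  by_contra h
  have h : ∀ v (T : Finset _), v = none ∨ c v ≠ c none →
      (∀ w ∈ T, (s(v, w) ∈ upE n b hb ∧ v ≠ w) ∧ c w = c v) → #T < n :=
    fun v T j k => not_le.1 fun l => h ⟨v, T, l, j, fun w hw =>
      ⟨(SimpleGraph.fromEdgeSet_adj _).2 (k w hw).1, (k w hw).2⟩⟩
  let S : Fin b → Finset (Fin (n + n / b)) := fun i => {k | c (some (.inr (i, k))) = c none}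
  have two : ∀ x y z : Fin 2, x ≠ y → z = x ∨ z = y := by decide
  have h1 : ∀ u : Fin n, c (some (.inl u)) ≠ c none →
      u / b < #(S ⟨u % b, Nat.mod_lt _ hb⟩) := fun u hu => by
    let i : Fin b := ⟨u % b, Nat.mod_lt _ hb⟩
    let T : Finset (Fin (n + n / b)) :=
      {k | k.1 < n + u / b ∧ c (some (.inr (i, k))) = c (some (.inl u))}
    have k1 := h (some (.inl u)) (T.image fun k => some (.inr (i, k))) (.inr hu) (by
      intro w hw
      obtain ⟨k, hk, rfl⟩ := mem_image.1 hw
      obtain ⟨-, k1, k2⟩ := mem_filter.1 hk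
      refine ⟨⟨mem_union_right _ (mem_image.2 ⟨⟨u, k⟩, ?_, rfl⟩), by simp⟩, k2⟩
      simpa using k1)
    rw [card_image_of_injective _ fun x y e => by simpa using e] at k1
    have k2 : #({k | k.1 < n + u / b} : Finset (Fin (n + n / b))) ≤ #T + #(S i) := by
      refine le_trans (card_le_card fun k hk => ?_) (card_union_le _ _)
      have := two _ _ (c (some (.inr (i, k)))) hu
      simp only [T, S, mem_union, mem_filter, mem_univ, true_and] at hk ⊢
      tauto
    rw [Fin.card_filter_val_lt, min_eq_right (up_le n b u)] at k2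
    change u / b < #(S i)
    omega
  have h2 : #{u : Fin n | ¬ c (some (.inl u)) = c none} ≤ ∑ i, #(S i) := by
    have e : ∑ i, #(S i) = #(univ.sigma fun i => range #(S i)) := by simp
    rw [e]
    refine card_le_card_of_injOn (fun u => ⟨⟨u % b, Nat.mod_lt _ hb⟩, u / b⟩) (fun u hu => ?_)
      fun u _ u' _ k => ?_
    · exact mem_coe.2 (mem_sigma.2 ⟨mem_univ _, mem_range.2 (h1 u (mem_filter.1 hu).2)⟩)
    · obtain ⟨k1, k2⟩ := Sigma.mk.inj k
      refine Fin.ext ?_
      rw [← Nat.div_add_mod u b, ← Nat.div_add_mod u' b, eq_of_heq k2, Fin.mk.inj k1]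
  have h3 := h none (({u : Fin n | c (some (.inl u)) = c none} : Finset _).disjSum
    ({p : Fin b × Fin (n + n / b) | c (some (.inr p)) = c none} : Finset _) |>.image some)
    (.inl rfl) (by
      intro w hw
      obtain ⟨y, hy, rfl⟩ := mem_image.1 hw
      refine ⟨⟨mem_union_left _ (mem_image.2 ⟨y, mem_univ _, rfl⟩), by simp⟩, ?_⟩
      rcases y with y | y <;> simpa using hy)
  rw [card_image_of_injective _ (Option.some_injective _), card_disjSum] at h3
  have h4 : #{p : Fin b × Fin (n + n / b) | c (some (.inr p)) = c none} = ∑ i, #(S i) := by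
    simp only [S, card_filter, Fintype.sum_prod_type]
  have h5 := card_filter_add_card_filter_not (s := univ) fun u : Fin n => c (some (.inl u)) = c none
  rw [card_univ, Fintype.card_fin] at h5
  omega

/-- The graph is not the union of a triangle-free graph and a graph of maximum degree below `n`. -/
theorem upE_arrow (n b : ℕ) (hb : 0 < b)
    (B D : SimpleGraph (Option (Fin n ⊕ Fin b × Fin (n + n / b))))
    (h : (SimpleGraph.fromEdgeSet (upE n b hb)).edgeSet = B.edgeSet ∪ D.edgeSet)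
    (hB : B.CliqueFree 3) : ∃ v, n ≤ (D.neighborSet v).ncard := by
  classical
  have s : ∀ v w, (SimpleGraph.fromEdgeSet (upE n b hb)).Adj v w → B.Adj v w ∨ D.Adj v w :=
    fun v w k => by
      have a : s(v, w) ∈ (SimpleGraph.fromEdgeSet (upE n b hb : Set _)).edgeSet := k
      rw [h] at a
      exact a
  obtain ⟨v, T, k1, k3, k2⟩ := upE_col n b hb fun w => if B.Adj none w then 1 else 0
  refine ⟨v, k1.trans ?_⟩
  rw [← Set.ncard_coe_finset]
  refine Set.ncard_le_ncard (fun w hw => (s v w (k2 w hw).1).resolve_left fun l => ?_)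
    (Set.toFinite _)
  have k4 := (k2 w hw).2
  rcases k3 with rfl | k3
  · simp [l] at k4
  · have a : B.Adj none v := by simpa using k3
    have a' : B.Adj none w := by simpa [a] using k4
    exact hB _ (SimpleGraph.is3Clique_triple_iff.2 ⟨a, a', l⟩)

/-- The choice of the number of pools, with `n = x ^ 6`. -/
theorem up_bound {n : ℕ} {x : ℝ} (hx : 1 ≤ x) (e : (n : ℝ) = x ^ 6) : ∃ (b : ℕ) (hb : 0 < b),
    (#(upE n b hb) : ℝ) ≤ x ^ 12 + √2 * x ^ 9 + 3 * x ^ 8 := by
  have x0 : 0 < x := by linarith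
  have r0 : 0 < √(2 : ℝ) := by positivity
  have r2 : √(2 : ℝ) * √2 = 2 := Real.mul_self_sqrt (by norm_num)
  obtain ⟨y, hy⟩ : ∃ y, y = √2 * x ^ 3 / 2 := ⟨_, rfl⟩
  have y0 : 0 < y := by rw [hy]; positivity
  have hb : 0 < ⌈y⌉₊ := Nat.ceil_pos.2 y0
  refine ⟨_, hb, (upE_card n _ hb).trans ?_⟩
  have b1 : y ≤ ⌈y⌉₊ := Nat.le_ceil y
  have b2 : (⌈y⌉₊ : ℝ) ≤ y + 1 := (Nat.ceil_lt_add_one y0.le).le
  have p6 : 0 < x ^ 6 := by positivity
  have k1 : (x ^ 6) ^ 2 / (2 * (⌈y⌉₊ : ℝ)) ≤ y * x ^ 6 := by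
    rw [div_le_iff₀ (by linarith)]
    have e1 : (x ^ 6) ^ 2 = y * x ^ 6 * (2 * y) := by
      rw [hy]
      linear_combination (-(x ^ 12) / 2) * r2
    rw [e1]
    exact mul_le_mul_of_nonneg_left (by linarith) (by positivity)
  have k2 := mul_le_mul_of_nonneg_right b2 p6.le
  have k3 : x ^ 6 ≤ x ^ 8 := pow_le_pow_right₀ hx (by norm_num)
  have k4 : 2 * (y * x ^ 6) = √2 * x ^ 9 := by rw [hy]; ring
  rw [e]
  linarith

end Pool.Agent.Lib.MP_c89be3_co
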